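import Mathlib

set_option autoImplicit false

namespace Pool.Agent.X189.SN

open Filter Topology Set Asymptotics

/-! ### Square roots and logarithms in a real commutative Banach algebra -/

section Log

variable {𝒜 : Type*} [NormedRing 𝒜] [NormedAlgebra ℝ 𝒜] [CompleteSpace 𝒜]

theorem exp_range_nhds : range (NormedSpace.exp : 𝒜 → 𝒜) ∈ 𝓝 (1 : 𝒜) := by
  have h : HasStrictFDerivAt (NormedSpace.exp : 𝒜 → 𝒜)
      ((ContinuousLinearEquiv.refl ℝ 𝒜 : 𝒜 ≃L[ℝ] 𝒜) : 𝒜 →L[ℝ] 𝒜) 0 :=
    hasStrictFDerivAt_exp_zero (𝕂 := ℝ) (𝔸 := 𝒜)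
  have h2 := h.map_nhds_eq_of_equiv
  rw [NormedSpace.exp_zero] at h2
  rw [← h2]
  exact range_mem_map

theorem exists_log (hcomm : ∀ a b : 𝒜, Commute a b) (D : 𝒜) (hD : ‖D‖ < 1) :
    ∃ Q : 𝒜, NormedSpace.exp Q = 1 - D := by
  obtain ⟨δ, hδ, hball⟩ := Metric.mem_nhds_iff.1 (exp_range_nhds (𝒜 := 𝒜))
  set K : ℝ := ‖D‖ * (|‖(1 : 𝒜)‖ - 1| + (1 - ‖D‖)⁻¹) with hK
  have h1D : 0 < 1 - ‖D‖ := by linarith
  have hK0 : 0 ≤ K := by positivity
  obtain ⟨N, hN⟩ := exists_nat_gt (K / δ)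
  have hN0 : (0 : ℝ) < N := lt_of_le_of_lt (by positivity) hN
  have hNδ : K / N < δ := by
    rw [div_lt_iff₀ hN0]; rw [div_lt_iff₀ hδ] at hN; linarith
  have step : ∀ j : ℕ, j ≤ N → ∃ Q : 𝒜, NormedSpace.exp Q = 1 - ((j : ℝ) / N) • D := by
    intro j
    induction j with
    | zero => intro _; exact ⟨0, by simp [NormedSpace.exp_zero]⟩
    | succ j ih =>
      intro hj
      obtain ⟨Q, hQ⟩ := ih (by omega)
      set t : ℝ := (j : ℝ) / N with ht
      have ht0 : 0 ≤ t := by positivity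
      have ht1 : t ≤ 1 := by
        rw [ht, div_le_one hN0]; exact_mod_cast (by omega : j ≤ N)
      have htD : ‖t • D‖ ≤ ‖D‖ := by
        rw [norm_smul, Real.norm_of_nonneg ht0]
        nlinarith [norm_nonneg D]
      have htD1 : ‖t • D‖ < 1 := htD.trans_lt hD
      set V : 𝒜 := ∑' n : ℕ, (t • D) ^ n with hV
      have hV1 : (1 - t • D) * V = 1 := mul_neg_geom_series _ htD1
      have hVn : ‖V‖ ≤ |‖(1 : 𝒜)‖ - 1| + (1 - ‖D‖)⁻¹ := by
        refine (tsum_geometric_le_of_norm_lt_one _ htD1).trans ?_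
        have : (1 - ‖t • D‖)⁻¹ ≤ (1 - ‖D‖)⁻¹ := by
          apply inv_anti₀ h1D; linarith
        have := le_abs_self (‖(1 : 𝒜)‖ - 1)
        linarith
      have hmem : (1 : 𝒜) - (1 / (N : ℝ)) • (D * V) ∈ Metric.ball (1 : 𝒜) δ := by
        rw [Metric.mem_ball, dist_eq_norm, sub_sub_cancel_left, norm_neg, norm_smul,
          Real.norm_of_nonneg (by positivity)]
        refine lt_of_le_of_lt ?_ hNδ
        rw [hK, one_div, inv_mul_eq_div]
        gcongr
        exact (norm_mul_le _ _).trans (by gcongr)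
      obtain ⟨Q', hQ'⟩ := hball hmem
      refine ⟨Q + Q', ?_⟩
      have hadd : NormedSpace.exp (Q + Q') = NormedSpace.exp Q * NormedSpace.exp Q' := by
        let _ : NormedAlgebra ℚ 𝒜 := NormedAlgebra.restrictScalars ℚ ℝ 𝒜
        exact NormedSpace.exp_add_of_commute (hcomm _ _)
      rw [hadd, hQ, hQ', mul_sub, mul_one, mul_smul_comm, ← mul_assoc, (hcomm (1 - t • D) D).eq,
        mul_assoc, hV1, mul_one, sub_sub, ← add_smul]
      congr 3
      rw [ht]; push_cast; ring
  obtain ⟨Q, hQ⟩ := step N le_rfl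
  exact ⟨Q, by rw [hQ, div_self hN0.ne', one_smul]⟩

end Log

/-! ### Catalan coefficients -/

/-- `u n = C_n / 4^n`. -/
noncomputable def u (n : ℕ) : ℝ := (catalan n : ℝ) / 4 ^ n

theorem u_nonneg (n : ℕ) : 0 ≤ u n := by unfold u; positivity

theorem u_rec (n : ℕ) : ∑ ij ∈ Finset.HasAntidiagonal.antidiagonal n, u ij.1 * u ij.2 = 4 * u (n + 1) := by
  unfold u
  rw [catalan_succ']
  push_cast
  rw [Finset.sum_div, Finset.mul_sum]
  refine Finset.sum_congr rfl fun ij hij => ?_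
  have := Finset.HasAntidiagonal.mem_antidiagonal.1 hij
  rw [← this, pow_succ, pow_add]
  field_simp

theorem u_zero : u 0 = 1 := by simp [u]

theorem sum_u_le (N : ℕ) : ∑ n ∈ Finset.range N, u n ≤ 2 := by
  induction N with
  | zero => simp
  | succ N ih =>
    rw [Finset.sum_range_succ', u_zero]
    have h1 : ∑ n ∈ Finset.range N, u (n + 1) ≤
        (1 / 4) * ((∑ n ∈ Finset.range N, u n) * (∑ n ∈ Finset.range N, u n)) := by
      have h2 : ∑ n ∈ Finset.range N, u (n + 1) =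
          (1 / 4) * ∑ n ∈ Finset.range N, ∑ ij ∈ Finset.HasAntidiagonal.antidiagonal n, u ij.1 * u ij.2 := by
        rw [Finset.mul_sum]
        refine Finset.sum_congr rfl fun n _ => ?_
        rw [u_rec]; ring
      rw [h2]
      refine mul_le_mul_of_nonneg_left ?_ (by norm_num)
      rw [Finset.sum_mul_sum, ← Finset.sum_product', Finset.sum_sigma']
      refine le_trans (le_of_eq ?_) (Finset.sum_le_sum_of_subset_of_nonneg
        (s := ((Finset.range N).sigma fun n => Finset.HasAntidiagonal.antidiagonal n).image fun x => x.2)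
        (f := fun ij : ℕ × ℕ => u ij.1 * u ij.2) ?_ ?_)
      · rw [Finset.sum_image]
        rintro ⟨n, ij⟩ h ⟨n', ij'⟩ h' (hh : ij = ij')
        simp only [Finset.coe_sigma, Set.mem_sigma_iff, Finset.mem_coe,
          Finset.HasAntidiagonal.mem_antidiagonal] at h h'
        subst hh
        have : n = n' := h.2.symm.trans h'.2
        subst this; rfl
      · intro ij hij
        simp only [Finset.mem_image, Finset.mem_sigma, Finset.mem_range,
          Finset.HasAntidiagonal.mem_antidiagonal] at hij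
        obtain ⟨⟨n, ij'⟩, ⟨h1, h2⟩, rfl⟩ := hij
        simp only [Finset.mem_product, Finset.mem_range]
        simp only at h1 h2
        omega
      · intro ij _ _
        exact mul_nonneg (u_nonneg _) (u_nonneg _)
    have h3 : 0 ≤ ∑ n ∈ Finset.range N, u n := Finset.sum_nonneg fun n _ => u_nonneg n
    nlinarith

theorem summable_u : Summable u :=
  summable_of_sum_range_le u_nonneg sum_u_le

theorem tsum_u_le : ∑' n, u n ≤ 2 :=
  Real.tsum_le_of_sum_range_le u_nonneg sum_u_le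

section Sqrt

variable {𝒜 : Type*} [NormedRing 𝒜] [NormedAlgebra ℝ 𝒜] [CompleteSpace 𝒜]

/-- `1 - sqrt (1 - a)`. -/
noncomputable def dd (a : 𝒜) : 𝒜 := ∑' n : ℕ, (u n / 2) • a ^ (n + 1)

theorem norm_term_le (a : 𝒜) {r : ℝ} (ha : ‖a‖ ≤ r) (hr : r ≤ 1) (n : ℕ) :
    ‖(u n / 2) • a ^ (n + 1)‖ ≤ u n / 2 * r := by
  have hu := u_nonneg n
  have hr0 : 0 ≤ r := (norm_nonneg a).trans ha
  rw [norm_smul, Real.norm_of_nonneg (by positivity)]
  refine mul_le_mul_of_nonneg_left ?_ (by positivity)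
  calc ‖a ^ (n + 1)‖ ≤ ‖a‖ ^ (n + 1) := norm_pow_le' _ (Nat.succ_pos _)
    _ ≤ r ^ (n + 1) := by gcongr
    _ ≤ r := pow_le_of_le_one hr0 hr (Nat.succ_ne_zero _)

theorem summable_bound {r : ℝ} : Summable fun n => u n / 2 * r :=
  (summable_u.div_const 2).mul_right r

theorem summable_norm_term (a : 𝒜) (ha : ‖a‖ ≤ 1) :
    Summable fun n => ‖(u n / 2) • a ^ (n + 1)‖ :=
  Summable.of_nonneg_of_le (fun _ => norm_nonneg _) (norm_term_le a ha le_rfl) summable_bound

theorem norm_dd_le (a : 𝒜) {r : ℝ} (ha : ‖a‖ ≤ r) (hr : r ≤ 1) : ‖dd a‖ ≤ r := by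
  have hr0 : 0 ≤ r := (norm_nonneg a).trans ha
  refine (norm_tsum_le_tsum_norm (summable_norm_term a (ha.trans hr))).trans ?_
  refine ((summable_norm_term a (ha.trans hr)).tsum_le_tsum (norm_term_le a ha hr)
    summable_bound).trans ?_
  rw [tsum_mul_right, tsum_div_const]
  have := tsum_u_le
  nlinarith

theorem dd_sq (a : 𝒜) (ha : ‖a‖ ≤ 1) : (1 - dd a) * (1 - dd a) = 1 - a := by
  have hs := summable_norm_term a ha
  have h1 : dd a * dd a = ∑' n : ℕ, (u (n + 1)) • a ^ (n + 2) := by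
    unfold dd
    rw [tsum_mul_tsum_eq_tsum_sum_antidiagonal_of_summable_norm hs hs]
    refine tsum_congr fun n => ?_
    have h2 : ∀ ij ∈ Finset.HasAntidiagonal.antidiagonal n,
        (u ij.1 / 2) • a ^ (ij.1 + 1) * (u ij.2 / 2) • a ^ (ij.2 + 1) =
          (u ij.1 * u ij.2 / 4) • a ^ (n + 2) := by
      intro ij hij
      rw [smul_mul_smul_comm, ← pow_add]
      have := Finset.HasAntidiagonal.mem_antidiagonal.1 hij
      congr 1
      · ring
      · congr 1; omega
    rw [Finset.sum_congr rfl h2, ← Finset.sum_smul, ← Finset.sum_div, u_rec]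
    congr 1; ring
  have h2 : dd a + dd a = a + dd a * dd a := by
    rw [h1]
    have hsum : Summable fun n => (u n) • a ^ (n + 1) := by
      refine Summable.of_norm ?_
      refine (hs.mul_left 2).congr fun n => ?_
      rw [norm_smul, norm_smul, Real.norm_of_nonneg (u_nonneg n),
        Real.norm_of_nonneg (by have := u_nonneg n; positivity)]
      ring
    have h3 : dd a + dd a = ∑' n : ℕ, (u n) • a ^ (n + 1) := by
      unfold dd
      rw [← hs.of_norm.tsum_add hs.of_norm]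
      refine tsum_congr fun n => ?_
      rw [← add_smul]; congr 1; ring
    rw [h3, hsum.tsum_eq_zero_add, u_zero]
    simp
  have : (1 - dd a) * (1 - dd a) = 1 - (dd a + dd a) + dd a * dd a := by noncomm_ring
  rw [this, h2]; noncomm_ring

theorem tendsto_dd (a : 𝒜) (ha : ‖a‖ ≤ 1) :
    Tendsto (fun r : ℝ => dd (r • a)) (𝓝[<] 1) (𝓝 (dd a)) := by
  unfold dd
  refine tendsto_tsum_of_dominated_convergence (bound := fun n => u n / 2 * 1) summable_bound
    ?_ ?_
  · intro n
    have : Continuous fun r : ℝ => (u n / 2) • (r • a) ^ (n + 1) := by fun_prop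
    have h := this.tendsto 1
    rw [one_smul] at h
    exact tendsto_nhdsWithin_of_tendsto_nhds h
  · have h0 : Ioi (0 : ℝ) ∈ 𝓝[<] (1 : ℝ) := nhdsWithin_le_nhds (Ioi_mem_nhds one_pos)
    filter_upwards [self_mem_nhdsWithin, h0] with r hr hr0 n
    refine norm_term_le _ ?_ le_rfl n
    rw [norm_smul, Real.norm_of_nonneg (le_of_lt hr0)]
    have h1 : r < 1 := hr
    have h2 : (0 : ℝ) < r := hr0
    nlinarith [norm_nonneg a]

end Sqrt

end Pool.Agent.X189.SN
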