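import Pool.Agent.X189.SN.Key
import Pool.Agent.X189.SN.Root

set_option autoImplicit false

namespace Pool.Agent.X189.SN

open Filter Topology Set Asymptotics Polynomial

variable {X : Type*} [NormedAddCommGroup X] [NormedSpace ℂ X] [CompleteSpace X]

theorem real_smul_eq (c : ℝ) (B : X →L[ℂ] X) : c • B = (c : ℂ) • B := by
  rw [Complex.coe_smul]

theorem selfAdj_E_all (hX : Smooth X) {T : X →L[ℂ] X} (hT : SelfAdj T) (s : ℝ) :
    SelfAdj (E (T * T) s) := by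
  rcases le_total 0 s with hs | hs
  · exact selfAdj_E hX hT hs
  · have h1 : SelfAdj (E (T * T) (-s)) := selfAdj_E hX hT (by linarith)
    exact h1.inv (E_neg_mul _ _)

theorem selfAdj_exp_aeval (hX : Smooth X) {T : X →L[ℂ] X} (hT : SelfAdj T) (p : ℝ[X]) :
    SelfAdj (NormedSpace.exp (aeval (T * T) p)) := by
  induction p using Polynomial.induction_on' with
  | add p q hp hq =>
    rw [map_add]
    have hc : Commute (aeval (T * T) p) (aeval (T * T) q) := (Commute.all p q).map (aeval (T * T))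
    rw [exp_add_comm hc]
    exact hp.mul hq (hc.exp_right.exp_left)
  | monomial n a =>
    have h1 : aeval (T * T) (monomial n a) = (a : ℂ) • (T ^ n * T ^ n) := by
      rw [aeval_monomial, ← real_smul_eq, Algebra.algebraMap_eq_smul_one, smul_mul_assoc, one_mul]
      congr 1
      rw [(Commute.refl T).mul_pow]
    rw [h1]
    exact selfAdj_E_all hX (hT.pow n) a

theorem selfAdj_exp_elemental (hX : Smooth X) {T : X →L[ℂ] X} (hT : SelfAdj T)
    {Q : X →L[ℂ] X} (hQ : Q ∈ Algebra.elemental ℝ (T * T)) : SelfAdj (NormedSpace.exp Q) := by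
  have hcl : IsClosed {Q : X →L[ℂ] X | SelfAdj (NormedSpace.exp Q)} :=
    (isClosed_selfAdj hX).preimage exp_cont
  have hsub : ((Algebra.adjoin ℝ ({T * T} : Set (X →L[ℂ] X)) : Subalgebra ℝ (X →L[ℂ] X)) :
      Set (X →L[ℂ] X)) ⊆ {Q : X →L[ℂ] X | SelfAdj (NormedSpace.exp Q)} := by
    intro Q hQ
    rw [SetLike.mem_coe, Algebra.adjoin_singleton_eq_range_aeval] at hQ
    obtain ⟨p, rfl⟩ := hQ
    exact selfAdj_exp_aeval hX hT p
  exact closure_minimal hsub hcl hQ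

theorem elemental_commute {A Q C : X →L[ℂ] X} (hQ : Q ∈ Algebra.elemental ℝ A)
    (hC : Commute C A) : Commute C Q := by
  have h1 := Algebra.elemental.le_centralizer_centralizer ℝ A hQ
  rw [Subalgebra.mem_centralizer_iff] at h1
  refine h1 C ?_
  rw [SetLike.mem_coe, Subalgebra.mem_centralizer_iff]
  intro g hg
  rw [mem_singleton_iff] at hg
  subst hg
  exact hC.symm.eq

theorem abstract_root (hX : Smooth X) {𝒜 : Type*} [NormedRing 𝒜] [NormedAlgebra ℝ 𝒜]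
    [CompleteSpace 𝒜] (hcomm : ∀ x y : 𝒜, Commute x y) (φ : 𝒜 →ₐ[ℝ] (X →L[ℂ] X))
    (hφ : Continuous φ) (hexp : ∀ Q, SelfAdj (NormedSpace.exp (φ Q))) (a : 𝒜) (ha : ‖a‖ ≤ 1) :
    SelfAdj (1 - φ (dd a)) ∧ (1 - φ (dd a)) * (1 - φ (dd a)) = 1 - φ a := by
  have hself : ∀ D : 𝒜, ‖D‖ < 1 → SelfAdj (1 - φ D) := by
    intro D hD
    obtain ⟨Q, hQ⟩ := exists_log hcomm D hD
    have h2 : φ (NormedSpace.exp Q) = NormedSpace.exp (φ Q) := by
      let _ : NormedAlgebra ℚ 𝒜 := NormedAlgebra.restrictScalars ℚ ℝ 𝒜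
      let _ : NormedAlgebra ℚ (X →L[ℂ] X) := NormedAlgebra.restrictScalars ℚ ℝ (X →L[ℂ] X)
      exact NormedSpace.map_exp φ hφ Q
    have h1 : 1 - φ D = NormedSpace.exp (φ Q) := by
      rw [← h2, hQ, map_sub, map_one]
    rw [h1]
    exact hexp Q
  constructor
  · have hlim : Tendsto (fun r : ℝ => 1 - φ (dd (r • a))) (𝓝[<] 1) (𝓝 (1 - φ (dd a))) :=
      tendsto_const_nhds.sub ((hφ.tendsto _).comp (tendsto_dd a ha))
    refine (isClosed_selfAdj hX).mem_of_tendsto hlim ?_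
    have h0 : Ioi (0 : ℝ) ∈ 𝓝[<] (1 : ℝ) := nhdsWithin_le_nhds (Ioi_mem_nhds one_pos)
    filter_upwards [self_mem_nhdsWithin, h0] with r hr hr0
    refine hself _ ?_
    have h1 : ‖r • a‖ ≤ r := by
      rw [norm_smul, Real.norm_of_nonneg (le_of_lt hr0)]
      have : (0 : ℝ) < r := hr0
      nlinarith
    exact (norm_dd_le _ h1 (le_of_lt hr)).trans_lt hr
  · rw [← map_one φ, ← map_sub, ← map_mul, dd_sq a ha, map_sub]

/-- The square root of `1 - B²`. -/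
theorem sqrt_exists (hX : Smooth X) {B : X →L[ℂ] X} (hB : SelfAdj B) (hn : ‖B‖ ≤ 1) :
    ∃ S : X →L[ℂ] X, SelfAdj S ∧ S * S = 1 - B * B ∧ ∀ C, Commute C B → Commute C S := by
  set A := B * B with hA
  let a : Algebra.elemental ℝ A := ⟨A, Algebra.elemental.self_mem ℝ A⟩
  have hAn : ‖A‖ ≤ 1 := (norm_mul_le _ _).trans (by nlinarith [norm_nonneg B])
  have ha : ‖a‖ ≤ 1 := hAn
  have hcomm : ∀ x y : Algebra.elemental ℝ A, Commute x y := by
    intro x y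
    refine Subtype.ext ?_
    have h1 : Commute (x : X →L[ℂ] X) A := (elemental_commute x.2 (Commute.refl A)).symm
    exact (elemental_commute y.2 h1).eq
  obtain ⟨h1, h2⟩ := abstract_root hX hcomm (Algebra.elemental ℝ A).val continuous_subtype_val
    (fun Q => selfAdj_exp_elemental hX hB Q.2) a ha
  refine ⟨1 - (dd a : Algebra.elemental ℝ A), h1, h2, ?_⟩
  intro C hC
  have h1 : Commute C A := hC.mul_right hC
  exact (Commute.one_right C).sub_right (elemental_commute (dd a).2 h1)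

theorem smul_smul_mul (c : ℝ) (S : X →L[ℂ] X) :
    ((c : ℂ) • S) * ((c : ℂ) • S) = ((c ^ 2 : ℝ) : ℂ) • (S * S) := by
  rw [smul_mul_smul_comm]; congr 1; push_cast; ring

/-- Q1. -/
theorem q1 (hX : Smooth X) {T : X →L[ℂ] X} (hT : SelfAdj T) :
    ∃ S : X →L[ℂ] X, SelfAdj S ∧ ((‖T‖ ^ 2 : ℝ) : ℂ) • (1 : X →L[ℂ] X) - T ^ 2 = S ^ 2 := by
  by_cases h0 : ‖T‖ = 0
  · refine ⟨0, SelfAdj.zero hX, ?_⟩
    rw [norm_eq_zero] at h0
    simp [h0]
  · have hc0 : ((‖T‖ : ℝ) : ℂ) ≠ 0 := Complex.ofReal_ne_zero.2 h0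
    set c : ℝ := ‖T‖ with hc
    have hB : SelfAdj (((c⁻¹ : ℝ) : ℂ) • T) := hT.real_smul hX _
    have hBn : ‖((c⁻¹ : ℝ) : ℂ) • T‖ ≤ 1 := by
      rw [norm_smul, Complex.norm_real, norm_inv, hc, norm_norm, inv_mul_cancel₀ h0]
    obtain ⟨S, hS, hS2, -⟩ := sqrt_exists hX hB hBn
    refine ⟨(c : ℂ) • S, hS.real_smul hX c, ?_⟩
    rw [pow_two ((c : ℂ) • S), smul_smul_mul, hS2, smul_sub, smul_smul_mul, smul_smul, pow_two T]
    congr 1
    rw [← Complex.ofReal_mul, ← mul_pow, mul_inv_cancel₀ h0]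
    simp

/-- A self-adjoint operator bounded below is invertible. -/
theorem isUnit_of_bound {T : X →L[ℂ] X} (hT : SelfAdj T) {μ : ℝ} (hμ : 0 < μ)
    (hb : ∀ x, μ * ‖x‖ ≤ ‖T x‖) : IsUnit T := by
  have hlow : ∀ t : ℝ, 0 ≤ t → ∀ x, μ ^ 2 * ‖x‖ ≤ ‖(T * T + (t : ℂ) • (1 : X →L[ℂ] X)) x‖ := by
    intro t ht x
    by_cases hx : x = 0
    · simp [hx]
    · have hxp : 0 < ‖x‖ := norm_pos_iff.2 hx
      have h1 := re_J_le x ((T * T + (t : ℂ) • (1 : X →L[ℂ] X)) x)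
      have h2 : (T * T + (t : ℂ) • (1 : X →L[ℂ] X)) x = T (T x) + (t : ℂ) • x := rfl
      rw [h2, map_add, map_smul, smul_eq_mul, Complex.add_re, Complex.re_ofReal_mul, re_J_self,
        ← hT, re_J_self] at h1
      rw [h2]
      have h3 := hb x
      have h4 : (μ * ‖x‖) ^ 2 ≤ ‖T x‖ ^ 2 := by gcongr
      have h5 : ‖x‖ * (μ ^ 2 * ‖x‖) ≤ ‖x‖ * ‖T (T x) + (t : ℂ) • x‖ := by
        nlinarith [mul_nonneg ht (sq_nonneg ‖x‖)]
      exact le_of_mul_le_mul_left h5 hxp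
  let R : ℝ → (X →L[ℂ] X) := fun t => T * T + (t : ℂ) • (1 : X →L[ℂ] X)
  have hstep : ∀ t s : ℝ, 0 ≤ t → |s - t| < μ ^ 2 → IsUnit (R t) → IsUnit (R s) := by
    intro t s ht hst hu
    obtain ⟨U, hU⟩ := hu
    have hinv : ‖((U⁻¹ : (X →L[ℂ] X)ˣ) : X →L[ℂ] X)‖ ≤ (μ ^ 2)⁻¹ := by
      refine ContinuousLinearMap.opNorm_le_bound _ (by positivity) fun x => ?_
      have h1 := hlow t ht (((U⁻¹ : (X →L[ℂ] X)ˣ) : X →L[ℂ] X) x)
      have h2 : (T * T + (t : ℂ) • (1 : X →L[ℂ] X)) (((U⁻¹ : (X →L[ℂ] X)ˣ) : X →L[ℂ] X) x) = x := by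
        have h3 : (U : X →L[ℂ] X) * ((U⁻¹ : (X →L[ℂ] X)ˣ) : X →L[ℂ] X) = 1 := U.mul_inv
        rw [hU] at h3
        have := congrArg (fun B : X →L[ℂ] X => B x) h3
        exact this
      rw [h2] at h1
      rw [inv_mul_eq_div, le_div_iff₀ (by positivity)]
      linarith
    have h3 : ‖R s - (U : X →L[ℂ] X)‖ < ‖((U⁻¹ : (X →L[ℂ] X)ˣ) : X →L[ℂ] X)‖⁻¹ ∨
        ‖((U⁻¹ : (X →L[ℂ] X)ˣ) : X →L[ℂ] X)‖ = 0 := by
      by_cases h0 : ‖((U⁻¹ : (X →L[ℂ] X)ˣ) : X →L[ℂ] X)‖ = 0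
      · exact Or.inr h0
      · left
        have hpos : 0 < ‖((U⁻¹ : (X →L[ℂ] X)ˣ) : X →L[ℂ] X)‖ :=
          lt_of_le_of_ne (norm_nonneg _) (Ne.symm h0)
        have h4 : R s - (U : X →L[ℂ] X) = ((s - t : ℝ) : ℂ) • (1 : X →L[ℂ] X) := by
          rw [hU]
          show T * T + (s : ℂ) • (1 : X →L[ℂ] X) - (T * T + (t : ℂ) • (1 : X →L[ℂ] X)) = _
          rw [add_sub_add_left_eq_sub, ← sub_smul]; push_cast; rfl
        rw [h4, norm_smul, Complex.norm_real, Real.norm_eq_abs]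
        have h5 : ‖(1 : X →L[ℂ] X)‖ ≤ 1 := ContinuousLinearMap.norm_id_le
        have h6 : μ ^ 2 ≤ ‖((U⁻¹ : (X →L[ℂ] X)ˣ) : X →L[ℂ] X)‖⁻¹ := by
          rw [le_inv_comm₀ (by positivity) hpos]; exact hinv
        calc |s - t| * ‖(1 : X →L[ℂ] X)‖ ≤ |s - t| * 1 := by gcongr
          _ < μ ^ 2 := by rw [mul_one]; exact hst
          _ ≤ _ := h6
    rcases h3 with h3 | h3
    · exact ⟨Units.ofNearby U (R s) h3, rfl⟩
    · rw [norm_eq_zero] at h3
      have h4 : (1 : X →L[ℂ] X) = 0 := by rw [← U.mul_inv, h3, mul_zero]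
      have : R s = 1 := by rw [← mul_one (R s), h4, mul_zero]
      rw [this]; exact isUnit_one
  have hbig : IsUnit (R (‖T * T‖ + 1)) := by
    have hp : (0 : ℝ) < ‖T * T‖ + 1 := by positivity
    have hpc : (((‖T * T‖ + 1 : ℝ)) : ℂ) ≠ 0 := Complex.ofReal_ne_zero.2 hp.ne'
    have h1 : ‖-((((‖T * T‖ + 1 : ℝ)) : ℂ)⁻¹ • (T * T))‖ < 1 := by
      rw [norm_neg, norm_smul, norm_inv, Complex.norm_real, Real.norm_of_nonneg hp.le,
        inv_mul_lt_iff₀ hp]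
      linarith
    have h2 := (Units.oneSub _ h1).isUnit
    rw [Units.val_oneSub, sub_neg_eq_add] at h2
    have h3 : R (‖T * T‖ + 1) = (((‖T * T‖ + 1 : ℝ)) : ℂ) •
        (1 + (((‖T * T‖ + 1 : ℝ)) : ℂ)⁻¹ • (T * T)) := by
      show T * T + (((‖T * T‖ + 1 : ℝ)) : ℂ) • (1 : X →L[ℂ] X) = _
      rw [smul_add, smul_smul, mul_inv_cancel₀ hpc, one_smul, add_comm]
    rw [h3]
    have h4 : IsUnit ((algebraMap ℂ (X →L[ℂ] X)) (((‖T * T‖ + 1 : ℝ)) : ℂ)) :=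
      (IsUnit.mk0 _ hpc).map _
    rw [Algebra.smul_def]
    exact h4.mul h2
  obtain ⟨N, hN⟩ := exists_nat_gt ((‖T * T‖ + 1) / μ ^ 2)
  have hN0 : (0 : ℝ) < N := lt_of_le_of_lt (by positivity) hN
  have hall : ∀ j : ℕ, j ≤ N → IsUnit (R ((‖T * T‖ + 1) * (1 - (j : ℝ) / N))) := by
    intro j
    induction j with
    | zero => intro _; simpa using hbig
    | succ j ih =>
      intro hj
      refine hstep _ _ ?_ ?_ (ih (by omega))
      · have : (j : ℝ) / N ≤ 1 := by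
          rw [div_le_one hN0]; exact_mod_cast (by omega : j ≤ N)
        have : 0 ≤ 1 - (j : ℝ) / N := by linarith
        positivity
      · have e : (‖T * T‖ + 1) * (1 - ((j + 1 : ℕ) : ℝ) / N) - (‖T * T‖ + 1) * (1 - (j : ℝ) / N) =
            -((‖T * T‖ + 1) / N) := by
          push_cast; field_simp; ring
        rw [e, abs_neg, abs_of_nonneg (by positivity), div_lt_iff₀ hN0]
        rw [div_lt_iff₀ (by positivity)] at hN
        linarith
  have h0 := hall N le_rfl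
  rw [div_self hN0.ne', sub_self, mul_zero] at h0
  have h1 : R 0 = T * T := by
    show T * T + ((0 : ℝ) : ℂ) • (1 : X →L[ℂ] X) = _
    simp
  rw [h1, ← pow_two] at h0
  exact (isUnit_pow_iff two_ne_zero).1 h0

/-- Q2. -/
theorem q2 (hX : Smooth X) {T : X →L[ℂ] X} (hT : SelfAdj T) {μ : ℝ} (hμ : 0 ≤ μ)
    (hb : ∀ x, μ * ‖x‖ ≤ ‖T x‖) :
    ∃ S : X →L[ℂ] X, SelfAdj S ∧ T ^ 2 - ((μ ^ 2 : ℝ) : ℂ) • (1 : X →L[ℂ] X) = S ^ 2 := by
  rcases hμ.eq_or_lt with h0 | hpos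
  · refine ⟨T, hT, ?_⟩
    rw [← h0]; simp
  · obtain ⟨U, hU⟩ := isUnit_of_bound hT hpos hb
    set V : X →L[ℂ] X := ((U⁻¹ : (X →L[ℂ] X)ˣ) : X →L[ℂ] X) with hV
    have hTV : T * V = 1 := by rw [← hU]; exact U.mul_inv
    have hVT : V * T = 1 := by rw [← hU]; exact U.inv_mul
    have hVs : SelfAdj V := hT.inv hTV
    have hBs : SelfAdj ((μ : ℂ) • V) := hVs.real_smul hX μ
    have hBn : ‖(μ : ℂ) • V‖ ≤ 1 := by
      refine ContinuousLinearMap.opNorm_le_bound _ zero_le_one fun x => ?_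
      have h1 := hb (V x)
      have h2 : T (V x) = x := by
        have := congrArg (fun B : X →L[ℂ] X => B x) hTV
        exact this
      rw [h2] at h1
      have h3 : ((μ : ℂ) • V) x = (μ : ℂ) • V x := rfl
      rw [h3, norm_smul, Complex.norm_real, Real.norm_of_nonneg hpos.le]
      linarith
    obtain ⟨S, hS, hS2, hSc⟩ := sqrt_exists hX hBs hBn
    have hTB : Commute T ((μ : ℂ) • V) := by
      show T * ((μ : ℂ) • V) = ((μ : ℂ) • V) * T
      rw [mul_smul_comm, smul_mul_assoc, hTV, hVT]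
    have hTS : Commute T S := hSc T hTB
    refine ⟨T * S, hT.mul hS hTS, ?_⟩
    rw [hTS.mul_pow, pow_two S, hS2, smul_smul_mul, mul_sub, mul_one, mul_smul_comm]
    congr 2
    rw [pow_two, mul_assoc, ← mul_assoc T V V, hTV, one_mul, hTV]

end Pool.Agent.X189.SN
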