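import Mathlib

set_option autoImplicit false

namespace Pool.Agent.X189.SN

open Filter Topology Set

variable {X : Type*} [NormedAddCommGroup X] [NormedSpace ℂ X]

/-- Smooth: every unit vector has exactly one norming functional. -/
def Smooth (X : Type*) [NormedAddCommGroup X] [NormedSpace ℂ X] : Prop :=
  ∀ x : X, ‖x‖ = 1 → ∃! f : StrongDual ℂ X, ‖f‖ = 1 ∧ f x = 1

/-- `f` is a duality functional at `x`: `‖f‖ = ‖x‖`, `f x = ‖x‖²`. -/
def IsDual (f : StrongDual ℂ X) (x : X) : Prop := ‖f‖ = ‖x‖ ∧ f x = ((‖x‖ ^ 2 : ℝ) : ℂ)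

/-- The duality map. -/
noncomputable def J (x : X) : StrongDual ℂ X := Classical.epsilon fun f => IsDual f x

/-- Self-adjoint operators. -/
def SelfAdj (T : X →L[ℂ] X) : Prop := ∀ x y : X, J (T x) y = J x (T y)

theorem exists_isDual (x : X) : ∃ f : StrongDual ℂ X, IsDual f x := by
  by_cases hx : x = 0
  · subst hx; exact ⟨0, by simp [IsDual]⟩
  · obtain ⟨g, hg, hgx⟩ := exists_dual_vector ℂ x (norm_ne_zero_iff.2 hx)
    refine ⟨(‖x‖ : ℂ) • g, ?_, ?_⟩
    · rw [norm_smul, hg]; simp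
    · simp only [_root_.smul_apply, hgx, smul_eq_mul]
      push_cast
      simp [pow_two]

theorem J_isDual (x : X) : IsDual (J x) x :=
  Classical.epsilon_spec (exists_isDual x)

theorem isDual_unique (hX : Smooth X) {f g : StrongDual ℂ X} {x : X} (hf : IsDual f x)
    (hg : IsDual g x) : f = g := by
  by_cases hx : x = 0
  · subst hx
    have h1 := hf.1
    have h2 := hg.1
    rw [norm_zero, norm_eq_zero] at h1 h2
    rw [h1, h2]
  · have hx' : (‖x‖ : ℝ) ≠ 0 := norm_ne_zero_iff.2 hx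
    have hxc : ((‖x‖ : ℝ) : ℂ) ≠ 0 := Complex.ofReal_ne_zero.2 hx'
    have hu : ‖((‖x‖ : ℂ)⁻¹) • x‖ = 1 := by
      rw [norm_smul, norm_inv, Complex.norm_real, norm_norm, inv_mul_cancel₀ hx']
    have key : ∀ h : StrongDual ℂ X, IsDual h x →
        (‖((‖x‖ : ℂ)⁻¹) • h‖ = 1 ∧ (((‖x‖ : ℂ)⁻¹) • h) (((‖x‖ : ℂ)⁻¹) • x) = 1) := by
      intro h hh
      constructor
      · rw [norm_smul, norm_inv, Complex.norm_real, norm_norm, hh.1, inv_mul_cancel₀ hx']
      · rw [map_smul, _root_.smul_apply, hh.2]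
        simp only [smul_eq_mul]
        push_cast
        field_simp
    have := (hX _ hu).unique (key f hf) (key g hg)
    exact smul_right_injective _ (inv_ne_zero hxc) this

theorem re_J_self (x : X) : (J x x).re = ‖x‖ ^ 2 := by
  rw [(J_isDual x).2]; exact Complex.ofReal_re _

theorem norm_J (x : X) : ‖J x‖ = ‖x‖ := (J_isDual x).1

theorem re_J_le (x v : X) : (J x v).re ≤ ‖x‖ * ‖v‖ :=
  (Complex.re_le_norm _).trans (((J x).le_opNorm v).trans (by rw [norm_J]))

theorem abs_re_J_le (x v : X) : |(J x v).re| ≤ ‖x‖ * ‖v‖ :=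
  (Complex.abs_re_le_norm _).trans (((J x).le_opNorm v).trans (by rw [norm_J]))

/-- Subgradient inequality. -/
theorem subgrad (x v : X) : ‖x‖ ^ 2 + 2 * (J x (v - x)).re ≤ ‖v‖ ^ 2 := by
  have h1 := re_J_le x v
  have h2 := re_J_self x
  rw [map_sub, Complex.sub_re]
  nlinarith [sq_nonneg (‖x‖ - ‖v‖)]

/-- A functional satisfying the subgradient inequality is a duality functional. -/
theorem isDual_of_subgrad {g : StrongDual ℂ X} {x : X}
    (h : ∀ v, ‖x‖ ^ 2 + 2 * (g (v - x)).re ≤ ‖v‖ ^ 2) : IsDual g x := by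
  have h1 : ∀ w, (g w).re ≤ ‖x‖ * ‖w‖ := by
    intro w
    have h2 : ∀ t : ℝ, 0 < t → (g w).re ≤ ‖x‖ * ‖w‖ + t * ‖w‖ ^ 2 / 2 := by
      intro t ht
      have h3 := h (x + (t : ℂ) • w)
      rw [add_sub_cancel_left, map_smul, smul_eq_mul, Complex.re_ofReal_mul] at h3
      have h4 : ‖x + (t : ℂ) • w‖ ≤ ‖x‖ + t * ‖w‖ := by
        refine (norm_add_le _ _).trans ?_
        rw [norm_smul, Complex.norm_real, Real.norm_of_nonneg ht.le]
      have h5 : ‖x + (t : ℂ) • w‖ ^ 2 ≤ (‖x‖ + t * ‖w‖) ^ 2 := by gcongr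
      have h6 : 2 * t * (g w).re ≤ 2 * t * (‖x‖ * ‖w‖ + t * ‖w‖ ^ 2 / 2) := by nlinarith
      exact le_of_mul_le_mul_left h6 (by positivity)
    have h7 : Tendsto (fun t : ℝ => ‖x‖ * ‖w‖ + t * ‖w‖ ^ 2 / 2) (𝓝[>] 0)
        (𝓝 (‖x‖ * ‖w‖ + 0 * ‖w‖ ^ 2 / 2)) := by
      apply tendsto_nhdsWithin_of_tendsto_nhds
      apply Continuous.tendsto
      fun_prop
    have h8 := ge_of_tendsto h7 (by filter_upwards [self_mem_nhdsWithin] with t ht using h2 t ht)
    simpa using h8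
  have h2 : ‖g‖ ≤ ‖x‖ := by
    refine g.opNorm_le_bound (norm_nonneg _) fun w => ?_
    by_cases hw : g w = 0
    · rw [hw, norm_zero]; positivity
    · have hn : (‖g w‖ : ℝ) ≠ 0 := norm_ne_zero_iff.2 hw
      have hnc : ((‖g w‖ : ℝ) : ℂ) ≠ 0 := Complex.ofReal_ne_zero.2 hn
      have h3 := h1 (((starRingEnd ℂ) (g w) / (‖g w‖ : ℂ)) • w)
      rw [map_smul, smul_eq_mul, norm_smul] at h3
      have h4 : (starRingEnd ℂ) (g w) / (‖g w‖ : ℂ) * g w = (‖g w‖ : ℂ) := by
        rw [div_mul_eq_mul_div, mul_comm, Complex.mul_conj, Complex.normSq_eq_norm_sq]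
        rw [div_eq_iff hnc]; push_cast; ring
      rw [h4, Complex.ofReal_re] at h3
      have h5 : ‖(starRingEnd ℂ) (g w) / (‖g w‖ : ℂ)‖ = 1 := by
        rw [norm_div, RCLike.norm_conj, Complex.norm_real, norm_norm, div_self hn]
      rwa [h5, one_mul] at h3
  have h3 : ‖x‖ ^ 2 ≤ (g x).re := by
    have h := h 0
    simp only [zero_sub, map_neg, Complex.neg_re, norm_zero] at h
    -- gives `2 re ≥ ‖x‖²`; use scaling
    have h' : ∀ t : ℝ, 0 < t → t < 1 → (2 - t) * ‖x‖ ^ 2 / 2 ≤ (g x).re := by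
      intro t ht ht1
      have h3 := ‹∀ v, ‖x‖ ^ 2 + 2 * (g (v - x)).re ≤ ‖v‖ ^ 2› (((1 - t : ℝ) : ℂ) • x)
      have h4 : ((1 - t : ℝ) : ℂ) • x - x = ((-t : ℝ) : ℂ) • x := by
        push_cast; rw [sub_smul, one_smul, neg_smul]; abel
      rw [h4, map_smul, smul_eq_mul, Complex.re_ofReal_mul, norm_smul, Complex.norm_real,
        Real.norm_of_nonneg (by linarith)] at h3
      have h6 : t * ((2 - t) * ‖x‖ ^ 2 / 2) ≤ t * (g x).re := by nlinarith
      exact le_of_mul_le_mul_left h6 ht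
    have h7 : Tendsto (fun t : ℝ => (2 - t) * ‖x‖ ^ 2 / 2) (𝓝[>] 0)
        (𝓝 ((2 - 0) * ‖x‖ ^ 2 / 2)) := by
      apply tendsto_nhdsWithin_of_tendsto_nhds
      apply Continuous.tendsto
      fun_prop
    have h8 := le_of_tendsto h7 (by
      have : Iio (1 : ℝ) ∈ 𝓝[>] (0 : ℝ) := nhdsWithin_le_nhds (Iio_mem_nhds one_pos)
      filter_upwards [self_mem_nhdsWithin, this] with t ht ht' using h' t ht ht')
    linarith
  have h4 : ‖g x‖ ≤ ‖x‖ ^ 2 := (g.le_opNorm x).trans (by nlinarith [norm_nonneg x])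
  have h5 : (g x).re = ‖x‖ ^ 2 := le_antisymm ((Complex.re_le_norm _).trans h4) h3
  have h6 : (g x).im = 0 := by
    have h7 := Complex.sq_norm (g x)
    rw [Complex.normSq_apply, h5] at h7
    have h8 : ‖g x‖ ^ 2 ≤ (‖x‖ ^ 2) ^ 2 := by gcongr
    nlinarith [sq_nonneg (g x).im, mul_self_nonneg (g x).im]
  have h7 : g x = ((‖x‖ ^ 2 : ℝ) : ℂ) := Complex.ext (by rw [h5, Complex.ofReal_re])
    (by rw [h6, Complex.ofReal_im])
  refine ⟨le_antisymm h2 ?_, h7⟩
  by_cases hx : x = 0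
  · subst hx; simp
  · have hxp : 0 < ‖x‖ := norm_pos_iff.2 hx
    have h8 := g.le_opNorm x
    rw [h7, Complex.norm_real, Real.norm_of_nonneg (by positivity), pow_two] at h8
    exact le_of_mul_le_mul_right h8 hxp

theorem eq_J_of_subgrad (hX : Smooth X) {g : StrongDual ℂ X} {x : X}
    (h : ∀ v, ‖x‖ ^ 2 + 2 * (g (v - x)).re ≤ ‖v‖ ^ 2) : g = J x :=
  isDual_unique hX (isDual_of_subgrad h) (J_isDual x)

theorem selfAdj_iff (hX : Smooth X) (T : X →L[ℂ] X) :
    SelfAdj T ↔ ∀ x v, ‖T x‖ ^ 2 + 2 * (J x (T (v - T x))).re ≤ ‖v‖ ^ 2 := by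
  constructor
  · intro h x v
    rw [← h x]
    exact subgrad _ _
  · intro h x y
    have : (J x).comp T = J (T x) := eq_J_of_subgrad hX (fun v => h x v)
    rw [← this]; rfl

theorem isClosed_selfAdj (hX : Smooth X) : IsClosed {T : X →L[ℂ] X | SelfAdj T} := by
  have : {T : X →L[ℂ] X | SelfAdj T} =
      ⋂ x : X, ⋂ v : X, {T | ‖T x‖ ^ 2 + 2 * (J x (T (v - T x))).re ≤ ‖v‖ ^ 2} := by
    ext T
    simp only [mem_ofPred_eq, mem_iInter]
    exact selfAdj_iff hX T
  rw [this]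
  refine isClosed_iInter fun x => isClosed_iInter fun v => ?_
  refine isClosed_le ?_ continuous_const
  have h1 : Continuous fun T : X →L[ℂ] X => T x := by fun_prop
  have h2 : Continuous fun T : X →L[ℂ] X => T (v - T x) := by fun_prop
  have h3 : Continuous fun T : X →L[ℂ] X => (J x (T (v - T x))).re :=
    Complex.continuous_re.comp ((J x).continuous.comp h2)
  exact (h1.norm.pow 2).add (continuous_const.mul h3)

theorem J_real_smul (hX : Smooth X) (c : ℝ) (x : X) : J ((c : ℂ) • x) = (c : ℂ) • J x := by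
  refine isDual_unique hX (J_isDual _) ⟨?_, ?_⟩
  · rw [norm_smul, norm_smul, norm_J]
  · rw [map_smul, _root_.smul_apply, (J_isDual x).2, norm_smul, Complex.norm_real]
    simp only [smul_eq_mul]
    rw [← Complex.ofReal_mul, ← Complex.ofReal_mul]
    congr 1
    rw [mul_pow, Real.norm_eq_abs, sq_abs]; ring

namespace SelfAdj

theorem one : SelfAdj (1 : X →L[ℂ] X) := fun _ _ => rfl

theorem zero (hX : Smooth X) : SelfAdj (0 : X →L[ℂ] X) := by
  rw [selfAdj_iff hX]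
  intro x v
  simp

theorem mul {S T : X →L[ℂ] X} (hS : SelfAdj S) (hT : SelfAdj T) (h : Commute S T) :
    SelfAdj (S * T) := by
  intro x y
  have h2 : (S * T) y = T (S y) := by rw [h.eq]; rfl
  rw [h2, mul_apply_eq_comp, hS, hT]

theorem pow {T : X →L[ℂ] X} (hT : SelfAdj T) (n : ℕ) : SelfAdj (T ^ n) := by
  induction n with
  | zero => exact one
  | succ n ih => rw [pow_succ]; exact ih.mul hT (Commute.pow_self T n)

theorem real_smul (hX : Smooth X) {T : X →L[ℂ] X} (hT : SelfAdj T) (c : ℝ) :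
    SelfAdj ((c : ℂ) • T) := by
  intro x y
  rw [_root_.smul_apply, J_real_smul hX, _root_.smul_apply, hT,
    _root_.smul_apply, map_smul]

theorem inv {S T : X →L[ℂ] X} (hT : SelfAdj T) (h1 : T * S = 1) :
    SelfAdj S := by
  intro x y
  have e1 : T (S x) = x := by
    have := congrArg (fun A : X →L[ℂ] X => A x) h1; exact this
  have e2 : T (S y) = y := by
    have := congrArg (fun A : X →L[ℂ] X => A y) h1; exact this
  have := hT (S x) (S y)
  rw [e1, e2] at this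
  exact this.symm

end SelfAdj

end Pool.Agent.X189.SN
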