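import Pool.Agent.X189.SN.Basic

set_option autoImplicit false

namespace Pool.Agent.X189.SN

open Filter Topology Set Asymptotics

/-! ### A comparison lemma for chains of derivatives -/

theorem chain_nonneg {H : ℕ → ℝ → ℝ} {s₀ C ρ : ℝ} (hρ : 0 ≤ ρ)
    (hder : ∀ m s, HasDerivAt (H m) (H (m + 1) s) s) (h0 : ∀ m, 0 ≤ H m 0)
    (hb : ∀ m s, 0 ≤ s → s ≤ s₀ → -(C * ρ ^ m) ≤ H m s) :
    ∀ m s, 0 ≤ s → s ≤ s₀ → 0 ≤ H m s := by
  by_cases hC : 0 ≤ C
  swap
  · intro m s hs hs'
    have := hb m s hs hs'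
    rw [not_le] at hC
    have : 0 ≤ -C * ρ ^ m := mul_nonneg (by linarith) (pow_nonneg hρ _)
    linarith
  have key : ∀ k m : ℕ, ∀ s, 0 ≤ s → s ≤ s₀ →
      -(C * ρ ^ (m + k) * (s ^ k / k.factorial)) ≤ H m s := by
    intro k
    induction k with
    | zero =>
      intro m s hs hs'
      simpa using hb m s hs hs'
    | succ k ih =>
      intro m s hs hs'
      have hd : ∀ t : ℝ, HasDerivAt
          (fun t => H m t + C * ρ ^ (m + (k + 1)) * (t ^ (k + 1) / (k + 1).factorial))
          (H (m + 1) t + C * ρ ^ (m + (k + 1)) * (t ^ k / k.factorial)) t := by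
        intro t
        refine (hder m t).add (HasDerivAt.const_mul _ ?_)
        have h1 := (hasDerivAt_pow (k + 1) t).div_const ((k + 1).factorial : ℝ)
        convert h1 using 1
        rw [Nat.factorial_succ]
        push_cast
        have : ((k : ℝ) + 1) ≠ 0 := by positivity
        have : (k.factorial : ℝ) ≠ 0 := by positivity
        field_simp
      have hmono : MonotoneOn
          (fun t => H m t + C * ρ ^ (m + (k + 1)) * (t ^ (k + 1) / (k + 1).factorial))
          (Icc 0 s) := by
        apply monotoneOn_of_deriv_nonneg (convex_Icc _ _)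
        · exact fun t _ => (hd t).continuousAt.continuousWithinAt
        · exact fun t _ => (hd t).differentiableAt.differentiableWithinAt
        · intro t ht
          rw [interior_Icc] at ht
          rw [(hd t).deriv]
          have := ih (m + 1) t ht.1.le (ht.2.le.trans hs')
          rw [show m + 1 + k = m + (k + 1) by ring] at this
          linarith
      have := hmono (left_mem_Icc.2 hs) (right_mem_Icc.2 hs) hs
      simp only [ne_eq, Nat.add_eq_zero_iff, one_ne_zero, and_false, not_false_eq_true,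
        zero_pow, zero_div, mul_zero, add_zero] at this
      have h0' := h0 m
      linarith
  intro m s hs hs'
  have hlim : Tendsto (fun k : ℕ => -(C * ρ ^ (m + k) * (s ^ k / k.factorial))) atTop (𝓝 0) := by
    have h1 := FloorSemiring.tendsto_pow_div_factorial_atTop (ρ * s)
    have h2 := (h1.const_mul (C * ρ ^ m)).neg
    simp only [mul_zero, neg_zero] at h2
    refine h2.congr fun k => ?_
    rw [pow_add, mul_pow]; ring
  exact le_of_tendsto' hlim fun k => key k m s hs hs'

variable {X : Type*} [NormedAddCommGroup X] [NormedSpace ℂ X]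

/-- `exp(s A)` for real `s`. -/
noncomputable def E (A : X →L[ℂ] X) (s : ℝ) : X →L[ℂ] X := NormedSpace.exp ((s : ℂ) • A)

variable [CompleteSpace X]

theorem exp_add_comm {𝔸 : Type*} [NormedRing 𝔸] [NormedAlgebra ℝ 𝔸] [CompleteSpace 𝔸] {x y : 𝔸}
    (h : Commute x y) : NormedSpace.exp (x + y) = NormedSpace.exp x * NormedSpace.exp y := by
  let _ : NormedAlgebra ℚ 𝔸 := NormedAlgebra.restrictScalars ℚ ℝ 𝔸
  exact NormedSpace.exp_add_of_commute h

theorem exp_cont {𝔸 : Type*} [NormedRing 𝔸] [NormedAlgebra ℝ 𝔸] [CompleteSpace 𝔸] :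
    Continuous (NormedSpace.exp : 𝔸 → 𝔸) := by
  let _ : NormedAlgebra ℚ 𝔸 := NormedAlgebra.restrictScalars ℚ ℝ 𝔸
  exact NormedSpace.exp_continuous

theorem E_zero (A : X →L[ℂ] X) : E A 0 = 1 := by
  simp [E, NormedSpace.exp_zero]

theorem E_add (A : X →L[ℂ] X) (s t : ℝ) : E A (s + t) = E A s * E A t := by
  unfold E
  rw [Complex.ofReal_add, add_smul]
  exact exp_add_comm ((Commute.refl A).smul_left _ |>.smul_right _)

theorem E_neg_mul (A : X →L[ℂ] X) (s : ℝ) : E A (-s) * E A s = 1 := by
  rw [← E_add, neg_add_cancel, E_zero]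

theorem E_mul_neg (A : X →L[ℂ] X) (s : ℝ) : E A s * E A (-s) = 1 := by
  rw [← E_add, add_neg_cancel, E_zero]

theorem E_hasDerivAt (A : X →L[ℂ] X) (s : ℝ) : HasDerivAt (E A) (A * E A s) s := by
  have h := HasDerivAt.scomp (𝕜 := ℝ) s (hasDerivAt_exp_smul_const' (𝕂 := ℂ) A (s : ℂ))
    (Complex.ofRealCLM.hasDerivAt)
  simpa [Function.comp_def, E] using! h

theorem E_continuous (A : X →L[ℂ] X) : Continuous (E A) :=
  continuous_iff_continuousAt.2 fun s => (E_hasDerivAt A s).continuousAt

theorem E_commute {A B : X →L[ℂ] X} (h : Commute B A) (s : ℝ) : Commute B (E A s) := by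
  unfold E
  exact (h.smul_right _).exp_right

end Pool.Agent.X189.SN
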