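import Pool.Agent.X189.SN.Exp

set_option autoImplicit false

namespace Pool.Agent.X189.SN

open Filter Topology Set Asymptotics

theorem hasDerivAt_of_lower {φ θ B r : ℝ → ℝ} (s : ℝ) (hθ : ContinuousAt θ s)
    (hB : ContinuousAt B s) (hr : r =o[𝓝 0] (id : ℝ → ℝ))
    (h : ∀ s s', (s' - s) * θ s - B s * r (s' - s) ≤ φ s' - φ s) :
    HasDerivAt φ (θ s) s := by
  rw [hasDerivAt_iff_isLittleO]
  have hsub : Tendsto (fun x' : ℝ => x' - s) (𝓝 s) (𝓝 0) := by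
    have : Continuous fun x' : ℝ => x' - s := by fun_prop
    simpa using this.tendsto s
  have hsub' : Tendsto (fun x' : ℝ => s - x') (𝓝 s) (𝓝 0) := by
    have : Continuous fun x' : ℝ => s - x' := by fun_prop
    simpa using this.tendsto s
  have h1 : (fun x' : ℝ => (x' - s) * (θ x' - θ s)) =o[𝓝 s] fun x' => x' - s := by
    have : (fun x' : ℝ => θ x' - θ s) =o[𝓝 s] fun _ => (1 : ℝ) := by
      rw [isLittleO_one_iff]
      have := hθ.tendsto.sub_const (θ s)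
      simpa using this
    simpa using (isBigO_refl (fun x' : ℝ => x' - s) (𝓝 s)).mul_isLittleO this
  have h2 : (fun x' : ℝ => B s * r (x' - s)) =o[𝓝 s] fun x' => x' - s :=
    (hr.comp_tendsto hsub).const_mul_left _
  have h3 : (fun x' : ℝ => B x' * r (s - x')) =o[𝓝 s] fun x' => x' - s := by
    have h4 : (fun x' : ℝ => r (s - x')) =o[𝓝 s] fun x' => x' - s := by
      have := hr.comp_tendsto hsub'
      refine this.trans_isBigO ?_
      refine IsBigO.of_bound 1 (Eventually.of_forall fun x' => ?_)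
      simp [abs_sub_comm]
    have h5 : B =O[𝓝 s] fun _ => (1 : ℝ) := hB.tendsto.isBigO_one ℝ
    simpa using h5.mul_isLittleO h4
  have hsum := (h1.norm_left.add h2.norm_left).add h3.norm_left
  refine IsBigO.trans_isLittleO (IsBigO.of_bound 1 (Eventually.of_forall fun x' => ?_)) hsum
  rw [one_mul, smul_eq_mul]
  have ha := h s x'
  have hb := h x' s
  have n1 := neg_abs_le (B s * r (x' - s))
  have n2 := le_abs_self (B s * r (x' - s))
  have n3 := le_abs_self (B x' * r (s - x'))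
  have n4 := le_abs_self ((x' - s) * (θ x' - θ s))
  have n5 : 0 ≤ |(x' - s) * (θ x' - θ s)| := abs_nonneg _
  have n6 : 0 ≤ |B s * r (x' - s)| := abs_nonneg _
  have n7 : 0 ≤ |B x' * r (s - x')| := abs_nonneg _
  simp only [Real.norm_eq_abs]
  rw [abs_of_nonneg (a := |(x' - s) * (θ x' - θ s)| + |B s * r (x' - s)| + |B x' * r (s - x')|)
    (by positivity), abs_le]
  constructor
  · nlinarith
  · nlinarith

variable {X : Type*} [NormedAddCommGroup X] [NormedSpace ℂ X] [CompleteSpace X]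

/-- The remainder of the exponential. -/
noncomputable def rem (A : X →L[ℂ] X) (h : ℝ) : ℝ := ‖E A (h / 2) - 1 - ((h / 2 : ℝ) : ℂ) • A‖

theorem rem_isLittleO (A : X →L[ℂ] X) : rem A =o[𝓝 0] (id : ℝ → ℝ) := by
  have h1 : HasDerivAt (fun h : ℝ => E A (h / 2)) ((1 / 2 : ℝ) • (A * E A (0 / 2))) 0 := by
    have h2 : HasDerivAt (fun h : ℝ => h / 2) (1 / 2) 0 := by
      simpa using (hasDerivAt_id (0 : ℝ)).div_const 2
    exact HasDerivAt.scomp (𝕜 := ℝ) 0 (E_hasDerivAt A (0 / 2)) h2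
  rw [zero_div, E_zero, mul_one, hasDerivAt_iff_isLittleO] at h1
  have h3 := h1.norm_left
  refine (h3.congr ?_ ?_)
  · intro h
    rw [zero_div, E_zero, rem]
    congr 2
    rw [sub_zero, smul_smul, ← Complex.coe_smul]
    congr 2
    push_cast; ring
  · intro h; simp

theorem norm_sq_hasDerivAt {T : X →L[ℂ] X} (hT : SelfAdj T) (u : X) (s : ℝ) :
    HasDerivAt (fun s => ‖E (T * T) (s / 2) u‖ ^ 2) (‖E (T * T) (s / 2) (T u)‖ ^ 2) s := by
  have hc : Continuous fun s : ℝ => E (T * T) (s / 2) := (E_continuous _).comp (by fun_prop)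
  have hcu : ∀ v : X, Continuous fun s : ℝ => E (T * T) (s / 2) v := fun v =>
    (ContinuousLinearMap.apply ℂ X v).continuous.comp hc
  refine hasDerivAt_of_lower (θ := fun s => ‖E (T * T) (s / 2) (T u)‖ ^ 2)
    (B := fun s => 2 * ‖E (T * T) (s / 2) u‖ ^ 2) (r := rem (T * T)) s
    ((hcu _).norm.pow 2).continuousAt
    (continuous_const.mul ((hcu _).norm.pow 2)).continuousAt (rem_isLittleO _) ?_
  intro s s'
  set w := E (T * T) (s / 2) u with hw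
  have hTw : T w = E (T * T) (s / 2) (T u) := by
    have h1 : Commute T (E (T * T) (s / 2)) := E_commute ((Commute.refl T).mul_right
      (Commute.refl T)) _
    have := congrArg (fun B : X →L[ℂ] X => B u) h1.eq
    exact this
  have hw' : E (T * T) (s' / 2) u = E (T * T) ((s' - s) / 2) w := by
    have h1 : E (T * T) (s' / 2) = E (T * T) ((s' - s) / 2) * E (T * T) (s / 2) := by
      rw [← E_add]; congr 1; ring
    rw [h1]; rfl
  have h1 := subgrad w (E (T * T) (s' / 2) u)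
  have h2 : E (T * T) (s' / 2) u - w = (((s' - s) / 2 : ℝ) : ℂ) • (T (T w)) +
      (E (T * T) ((s' - s) / 2) - 1 - (((s' - s) / 2 : ℝ) : ℂ) • (T * T)) w := by
    rw [hw']
    simp [sub_apply, mul_apply_eq_comp]
  rw [h2, map_add, map_smul, smul_eq_mul, Complex.add_re, Complex.re_ofReal_mul] at h1
  have h3 : (J w (T (T w))).re = ‖T w‖ ^ 2 := by rw [← hT w, re_J_self]
  have h4 : -(‖w‖ * (rem (T * T) (s' - s) * ‖w‖)) ≤
      (J w ((E (T * T) ((s' - s) / 2) - 1 - (((s' - s) / 2 : ℝ) : ℂ) • (T * T)) w)).re := by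
    have h5 := abs_re_J_le w
      ((E (T * T) ((s' - s) / 2) - 1 - (((s' - s) / 2 : ℝ) : ℂ) • (T * T)) w)
    have h6 : ‖(E (T * T) ((s' - s) / 2) - 1 - (((s' - s) / 2 : ℝ) : ℂ) • (T * T)) w‖ ≤
        rem (T * T) (s' - s) * ‖w‖ := ContinuousLinearMap.le_opNorm _ _
    have h7 : ‖w‖ * ‖(E (T * T) ((s' - s) / 2) - 1 - (((s' - s) / 2 : ℝ) : ℂ) • (T * T)) w‖ ≤
        ‖w‖ * (rem (T * T) (s' - s) * ‖w‖) := mul_le_mul_of_nonneg_left h6 (norm_nonneg _)
    have := (abs_le.1 (h5.trans h7)).1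
    exact this
  rw [h3] at h1
  simp only [← hTw]
  nlinarith

/-- Main inequality. -/
theorem exp_ineq (hX : Smooth X) {T : X →L[ℂ] X} (hT : SelfAdj T) (x u : X) {s : ℝ} (hs : 0 ≤ s) :
    ‖E (T * T) (s / 2) x‖ ^ 2 + 2 * (J x (E (T * T) s (u - x))).re ≤
      ‖E (T * T) (s / 2) u‖ ^ 2 := by
  set A := T * T with hA
  let H : ℕ → ℝ → ℝ := fun m t => ‖E A (t / 2) ((T ^ m) u)‖ ^ 2 - ‖E A (t / 2) ((T ^ m) x)‖ ^ 2 -
    2 * (J ((T ^ m) x) (E A t ((T ^ m) (u - x)))).re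
  have hTE : ∀ t, Commute T (E A t) := fun t =>
    E_commute ((Commute.refl T).mul_right (Commute.refl T)) t
  have hTEa : ∀ t v, T (E A t v) = E A t (T v) := fun t v => by
    have := congrArg (fun B : X →L[ℂ] X => B v) (hTE t).eq
    exact this
  have one_ap : ∀ v : X, (1 : X →L[ℂ] X) v = v := fun _ => rfl
  have hpow : ∀ m v, T ((T ^ m) v) = (T ^ (m + 1)) v := fun m v => by
    rw [pow_succ']; rfl
  have hder : ∀ m t, HasDerivAt (H m) (H (m + 1) t) t := by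
    intro m t
    have h1 := norm_sq_hasDerivAt hT ((T ^ m) u) t
    have h2 := norm_sq_hasDerivAt hT ((T ^ m) x) t
    rw [hpow] at h1 h2
    refine (h1.sub h2).sub (HasDerivAt.const_mul 2 ?_)
    have h3 : HasDerivAt (fun t => E A t ((T ^ m) (u - x))) ((A * E A t) ((T ^ m) (u - x))) t :=
      ((ContinuousLinearMap.apply ℂ X ((T ^ m) (u - x))).restrictScalars ℝ).hasFDerivAt.comp_hasDerivAt
        t (E_hasDerivAt A t)
    have h4 : HasDerivAt (fun t => (J ((T ^ m) x) (E A t ((T ^ m) (u - x)))).re)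
        (J ((T ^ m) x) ((A * E A t) ((T ^ m) (u - x)))).re t :=
      ((Complex.reCLM.comp ((J ((T ^ m) x)).restrictScalars ℝ)).hasFDerivAt.comp_hasDerivAt t h3)
    have h5 : (A * E A t) ((T ^ m) (u - x)) = T (E A t ((T ^ (m + 1)) (u - x))) := by
      rw [← hpow, ← hTEa, hA]; rfl
    rw [h5, ← hT, hpow] at h4
    exact h4
  have h0 : ∀ m, 0 ≤ H m 0 := by
    intro m
    show 0 ≤ ‖E A (0 / 2) ((T ^ m) u)‖ ^ 2 - ‖E A (0 / 2) ((T ^ m) x)‖ ^ 2 -
      2 * (J ((T ^ m) x) (E A 0 ((T ^ m) (u - x)))).re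
    rw [zero_div, E_zero, one_ap, one_ap, one_ap, map_sub]
    have := subgrad ((T ^ m) x) ((T ^ m) u)
    linarith
  obtain ⟨M, hM⟩ : ∃ M, ∀ t ∈ Icc 0 s, ‖E A t‖ ≤ M := by
    obtain ⟨M, hM⟩ := (isCompact_Icc (a := (0 : ℝ)) (b := s)).exists_bound_of_continuousOn
      (E_continuous A).continuousOn
    exact ⟨M, hM⟩
  have hM0 : 0 ≤ M := (norm_nonneg _).trans (hM 0 ⟨le_rfl, hs⟩)
  have hTm : ∀ m v, ‖(T ^ m) v‖ ≤ ‖T‖ ^ m * ‖v‖ := by
    intro m v
    induction m with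
    | zero => simp
    | succ m ih =>
      rw [← hpow]
      calc ‖T ((T ^ m) v)‖ ≤ ‖T‖ * ‖(T ^ m) v‖ := T.le_opNorm _
        _ ≤ ‖T‖ * (‖T‖ ^ m * ‖v‖) := by gcongr
        _ = ‖T‖ ^ (m + 1) * ‖v‖ := by ring
  have hEb : ∀ t ∈ Icc 0 s, ∀ m v, ‖E A t ((T ^ m) v)‖ ≤ M * (‖T‖ ^ m * ‖v‖) := by
    intro t ht m v
    calc ‖E A t ((T ^ m) v)‖ ≤ ‖E A t‖ * ‖(T ^ m) v‖ := ContinuousLinearMap.le_opNorm _ _
      _ ≤ M * (‖T‖ ^ m * ‖v‖) := mul_le_mul (hM t ht) (hTm m v) (norm_nonneg _) hM0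
  have hb : ∀ m t, 0 ≤ t → t ≤ s →
      -((M ^ 2 * ‖x‖ ^ 2 + 2 * (‖x‖ * (M * ‖u - x‖))) * (‖T‖ ^ 2) ^ m) ≤ H m t := by
    intro m t ht ht'
    have h1 := hEb (t / 2) ⟨by linarith, by linarith⟩ m x
    have h2 := hEb t ⟨ht, ht'⟩ m (u - x)
    have h3 := abs_re_J_le ((T ^ m) x) (E A t ((T ^ m) (u - x)))
    have h4 : ‖(T ^ m) x‖ * ‖E A t ((T ^ m) (u - x))‖ ≤
        (‖T‖ ^ m * ‖x‖) * (M * (‖T‖ ^ m * ‖u - x‖)) :=
      mul_le_mul (hTm m x) h2 (norm_nonneg _) (by positivity)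
    have h5 := (abs_le.1 (h3.trans h4)).2
    have h6 : ‖E A (t / 2) ((T ^ m) x)‖ ^ 2 ≤ (M * (‖T‖ ^ m * ‖x‖)) ^ 2 := by gcongr
    have h7 : 0 ≤ ‖E A (t / 2) ((T ^ m) u)‖ ^ 2 := by positivity
    have h8 : (M ^ 2 * ‖x‖ ^ 2 + 2 * (‖x‖ * (M * ‖u - x‖))) * (‖T‖ ^ 2) ^ m =
        (M * (‖T‖ ^ m * ‖x‖)) ^ 2 + 2 * ((‖T‖ ^ m * ‖x‖) * (M * (‖T‖ ^ m * ‖u - x‖))) := by
      rw [← pow_mul, mul_comm 2 m, pow_mul]; ring
    rw [h8]
    show _ ≤ ‖E A (t / 2) ((T ^ m) u)‖ ^ 2 - ‖E A (t / 2) ((T ^ m) x)‖ ^ 2 -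
      2 * (J ((T ^ m) x) (E A t ((T ^ m) (u - x)))).re
    linarith
  have := chain_nonneg (H := H) (s₀ := s) (by positivity) hder h0 hb 0 s hs le_rfl
  have h9 : 0 ≤ ‖E A (s / 2) ((T ^ 0) u)‖ ^ 2 - ‖E A (s / 2) ((T ^ 0) x)‖ ^ 2 -
    2 * (J ((T ^ 0) x) (E A s ((T ^ 0) (u - x)))).re := this
  simp only [pow_zero, one_ap] at h9
  linarith

theorem selfAdj_E (hX : Smooth X) {T : X →L[ℂ] X} (hT : SelfAdj T) {s : ℝ} (hs : 0 ≤ s) :
    SelfAdj (E (T * T) s) := by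
  rw [selfAdj_iff hX]
  intro x v
  have h := exp_ineq hX hT x (E (T * T) (-s) v) (s := 2 * s) (by linarith)
  have e1 : (2 * s) / 2 = s := by ring
  rw [e1] at h
  have e2 : E (T * T) s (E (T * T) (-s) v) = v := by
    have := congrArg (fun B : X →L[ℂ] X => B v) (E_mul_neg (T * T) s)
    exact this
  have e3 : E (T * T) (2 * s) (E (T * T) (-s) v - x) = E (T * T) s (v - E (T * T) s x) := by
    have h2 : E (T * T) (2 * s) = E (T * T) s * E (T * T) s := by rw [← E_add]; congr 1; ring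
    rw [h2]
    show E (T * T) s (E (T * T) s (E (T * T) (-s) v - x)) = _
    rw [map_sub (E (T * T) s) (E (T * T) (-s) v), e2]
  rw [e2, e3] at h
  exact h

end Pool.Agent.X189.SN
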